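import Pool.Agent.H927.MG.SGoals

/-! M4P1 spa (helper803): the special parameters over `ℂ⟦X⟧` and the explicit division by `P ^ 2`.

The lemmas `binom_pow`, `root`, `root6`, `inv_of` are those of helper353 (task arcs). -/

set_option autoImplicit false

open AlgebraicGeometry CategoryTheory Limits

namespace Pool.Agent.H803.MG927

open Pool.Agent.H927.MG
open PowerSeries (constantCoeff)

section roots

theorem binom_pow (r : ℚ) (k : ℕ) :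
    (PowerSeries.binomialSeries ℂ r) ^ k = PowerSeries.binomialSeries ℂ ((k : ℚ) * r) := by
  induction k with
  | zero =>
    rw [pow_zero, Nat.cast_zero, zero_mul, PowerSeries.binomialSeries_zero]
  | succ k ih =>
    rw [pow_succ, ih, ← PowerSeries.binomialSeries_add]
    congr 1
    push_cast
    ring

/-- roots of power series with nonzero constant coefficient -/
theorem root (n : ℕ) (hn : 0 < n) (f : PowerSeries ℂ) (hf : constantCoeff f ≠ 0) :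
    ∃ g : PowerSeries ℂ, g ^ n = f := by
  obtain ⟨r, hr⟩ := IsAlgClosed.exists_pow_nat_eq (constantCoeff f) hn
  set h : PowerSeries ℂ := PowerSeries.C (constantCoeff f)⁻¹ * f - 1 with hh
  have h0 : constantCoeff h = 0 := by
    rw [hh, map_sub, map_mul, PowerSeries.constantCoeff_C, inv_mul_cancel₀ hf, map_one, sub_self]
  have hs : PowerSeries.HasSubst h := PowerSeries.HasSubst.of_constantCoeff_zero h0
  set b := PowerSeries.binomialSeries ℂ (1 / (n : ℚ)) with hb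
  have hbn : b ^ n = 1 + PowerSeries.X := by
    have hn' : (n : ℚ) ≠ 0 := by exact_mod_cast hn.ne'
    rw [hb, binom_pow, mul_one_div_cancel hn']
    have := PowerSeries.binomialSeries_nat (R := ℚ) (A := ℂ) 1
    rw [Nat.cast_one, pow_one] at this
    exact this
  refine ⟨PowerSeries.C r * b.subst h, ?_⟩
  have h1 : (b.subst h : PowerSeries ℂ) ^ n = 1 + h := by
    rw [← PowerSeries.subst_pow hs, hbn, PowerSeries.subst_add hs, PowerSeries.subst_X hs]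
    congr 1
    have := map_one (PowerSeries.substAlgHom (R := ℂ) hs)
    rwa [PowerSeries.coe_substAlgHom hs] at this
  rw [mul_pow, h1, ← map_pow, hr, hh]
  have h2 : PowerSeries.C (constantCoeff f) * PowerSeries.C (constantCoeff f)⁻¹ = 1 := by
    rw [← map_mul, mul_inv_cancel₀ hf, map_one]
  linear_combination f * h2

/-- roots of polynomials in `c + X ^ 6` -/
theorem root6 (n m : ℕ) (hnm : m * n = 6) (p : Polynomial ℂ) (c : ℂ) :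
    ∃ g : PowerSeries ℂ, g ^ n = Polynomial.aeval (PowerSeries.C c + PowerSeries.X ^ 6) p := by
  have hn : 0 < n := by
    rcases Nat.eq_zero_or_pos n with h | h
    · subst h; omega
    · exact h
  set r := p.comp (Polynomial.X + Polynomial.C c) with hr
  have hq : Polynomial.aeval (PowerSeries.C c + PowerSeries.X ^ 6) p =
      Polynomial.aeval (PowerSeries.X ^ 6 : PowerSeries ℂ) r := by
    rw [hr, Polynomial.aeval_comp]
    congr 1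
    simp only [map_add, Polynomial.aeval_X, Polynomial.aeval_C]
    rw [add_comm]
    rfl
  rw [hq]
  by_cases h0 : r = 0
  · exact ⟨0, by rw [h0, map_zero, zero_pow hn.ne']⟩
  obtain ⟨r', hr', hnd⟩ := Polynomial.exists_eq_pow_rootMultiplicity_mul_and_not_dvd r h0 0
  rw [map_zero, sub_zero] at hr' hnd
  set k := r.rootMultiplicity 0
  have hc : constantCoeff (Polynomial.aeval (PowerSeries.X ^ 6 : PowerSeries ℂ) r') ≠ 0 := by
    intro h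
    apply hnd
    rw [Polynomial.X_dvd_iff]
    rw [Polynomial.aeval_def, Polynomial.hom_eval₂] at h
    have h1 : constantCoeff (PowerSeries.X ^ 6 : PowerSeries ℂ) = 0 := by
      rw [map_pow, PowerSeries.constantCoeff_X, zero_pow (by norm_num)]
    rw [h1, Polynomial.eval₂_at_zero] at h
    simpa using h
  obtain ⟨g, hg⟩ := root n hn _ hc
  refine ⟨PowerSeries.X ^ (m * k) * g, ?_⟩
  rw [mul_pow, hg, hr', map_mul, map_pow, Polynomial.aeval_X, ← pow_mul, ← pow_mul]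
  congr 2
  rw [← hnm]
  ring

theorem inv_of (f : PowerSeries ℂ) (hf : constantCoeff f ≠ 0) : ∃ w, f * w = 1 :=
  ⟨f⁻¹, PowerSeries.mul_inv_cancel f hf⟩

end roots

section division

variable {A : Type} [CommRing A]

/-- the quotient for `V` -/
def qV (x l s : A) : A :=
  -2 * x^5 * l * s^10 - 74 * x^5 * l * s^8 - 1044 * x^5 * l * s^6 - 6804 * x^5 * l * s^4 - 18954 * x^5 * l * s^2 - 13122 * x^5 * l - 8 * x^4 * l^2 * s^9 - 36 * x^4 * l^2 * s^8 - 1008 * x^4 * l^2 * s^6 + 2160 * x^4 * l^2 * s^5 - 9720 * x^4 * l^2 * s^4 + 15552 * x^4 * l^2 * s^3 - 34992 * x^4 * l^2 * s^2 + 17496 * x^4 * l^2 * s - 26244 * x^4 * l^2 - 12 * x^3 * s^10 - 96 * x^3 * s^9 - 404 * x^3 * s^8 + 1200 * x^3 * s^7 - 9720 * x^3 * s^6 + 24624 * x^3 * s^5 - 49896 * x^3 * s^4 + 58320 * x^3 * s^3 - 67068 * x^3 * s^2 + 34992 * x^3 * s - 26244 * x^3 - 2 * x^2 * l * s^10 - 114 * x^2 * l * s^8 - 432 * x^2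 * l * s^7 - 4428 * x^2 * l * s^6 + 15120 * x^2 * l * s^5 - 37260 * x^2 * l * s^4 + 50544 * x^2 * l * s^3 - 48114 * x^2 * l * s^2 + 34992 * x^2 * l * s - 13122 * x^2 * l - 8 * x * l^2 * s^9 - 32 * x * l^2 * s^8 + 96 * x * l^2 * s^7 + 288 * x * l^2 * s^6 + 3888 * x * l^2 * s^5 - 18144 * x * l^2 * s^4 + 23328 * x * l^2 * s^3 - 23328 * x * l^2 * s^2 + 17496 * x * l^2 * s - 12 * s^10 - 112 * s^9 - 624 * s^8 - 1584 * s^7 - 6120 * s^6 + 2160 * s^5 - 14256 * s^4 + 3888 * s^3 - 8748 * s^2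

/-- the quotient for `T₁` -/
def qT (x l s : A) : A :=
  2 * x^4 * l * s^10 + 74 * x^4 * l * s^8 + 1044 * x^4 * l * s^6 + 6804 * x^4 * l * s^4 + 18954 * x^4 * l * s^2 + 13122 * x^4 * l + 4 * x^3 * l^2 * s^9 + 36 * x^3 * l^2 * s^8 + 1008 * x^3 * l^2 * s^6 - 1080 * x^3 * l^2 * s^5 + 9720 * x^3 * l^2 * s^4 - 7776 * x^3 * l^2 * s^3 + 34992 * x^3 * l^2 * s^2 - 8748 * x^3 * l^2 * s + 26244 * x^3 * l^2 + 24 * x^2 * s^9 + 324 * x^2 * s^8 - 624 * x^2 * s^7 + 6480 * x^2 * s^6 - 10368 * x^2 * s^5 + 38232 * x^2 * s^4 - 27216 * x^2 * s^3 + 58320 * x^2 * s^2 - 17496 * x^2 * s + 26244 * x^2 + 2 * x * l * s^10 - 6 * x * l * s^8 - 216 * x * l * s^7 + 1476 * x * l * s^6 - 4104 * x * l * s^5 + 18468 * x * l * s^4 - 21384 * x * l * s^3 + 30618 * x * l * s^2 - 17496 * x * l * s + 13122 * x * l + 4 * l^2 * s^9 + 40 * l^2 * s^8 + 192 * l^2 * s^7 + 792 * l^2 * s^6 + 648 * l^2 * s^5 +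 4536 * l^2 * s^4 - 7776 * l^2 * s^3 + 5832 * l^2 * s^2 - 8748 * l^2 * s

theorem div_V (x l s : A) (hl : l ^ 3 = 1 + s ^ 2) :
    ((8 - 16 * (1 + s ^ 2) - (1 + s ^ 2) ^ 2) + 24 * s * l ^ 2 * x - 18 * l ^ 4 * x ^ 2 +
      4 * s * ((1 + s ^ 2) + 2) * x ^ 3) *
      ((l ^ 2 * (9 + s ^ 2) ^ 2 * x - 2 * s * (8 + 20 * (1 + s ^ 2) - (1 + s ^ 2) ^ 2)) ^ 2 +
        l ^ 2 * (9 + s ^ 2) ^ 2 * (l ^ 2 * (9 + s ^ 2) ^ 2 * x ^ 2 -
          4 * s * (8 + 20 * (1 + s ^ 2) - (1 + s ^ 2) ^ 2) * x + 8 * s ^ 2 * l * (9 + s ^ 2))) -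
      2 * l * (9 + s ^ 2) *
        (l ^ 2 * (9 + s ^ 2) ^ 2 * x - 2 * s * (8 + 20 * (1 + s ^ 2) - (1 + s ^ 2) ^ 2)) *
        (l ^ 2 * (9 + s ^ 2) ^ 2 * x ^ 2 -
          4 * s * (8 + 20 * (1 + s ^ 2) - (1 + s ^ 2) ^ 2) * x + 8 * s ^ 2 * l * (9 + s ^ 2)) *
        (l ^ 2 * x ^ 2 - 2 * s * x + 2 * l) = (s ^ 2 - 2 * s + 3) ^ 2 * qV x l s := by
  unfold qV
  linear_combination (-2 * x^5 * l^4 * s^10 - 90 * x^5 * l^4 * s^8 - 1620 * x^5 * l^4 * s^6 - 14580 * x^5 * l^4 * s^4 - 65610 * x^5 * l^4 * s^2 - 118098 * x^5 * l^4 - 2 * x^5 * l * s^12 + 8 * x^5 * l * s^11 - 92 * x^5 * l * s^10 + 312 * x^5 * l * s^9 - 1710 * x^5 * l * s^8 + 4752 * x^5 * l * s^7 - 16200 * x^5 * l * s^6 + 34992 * x^5 * l * s^5 - 80190 * x^5 * l * s^4 + 122472 * x^5 * l * s^3 - 183708 * x^5 * l * s^2 + 157464 * x^5 * l * s - 118098 * x^5 * l - 36 * x^4 * l^5 * s^8 - 1296 * x^4 * l^5 * s^6 - 17496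 * x^4 * l^5 * s^4 - 104976 * x^4 * l^5 * s^2 - 236196 * x^4 * l^5 - 8 * x^4 * l^2 * s^11 - 36 * x^4 * l^2 * s^10 + 72 * x^4 * l^2 * s^9 - 1332 * x^4 * l^2 * s^8 + 6480 * x^4 * l^2 * s^7 - 18792 * x^4 * l^2 * s^6 + 81648 * x^4 * l^2 * s^5 - 122472 * x^4 * l^2 * s^4 + 367416 * x^4 * l^2 * s^3 - 341172 * x^4 * l^2 * s^2 + 472392 * x^4 * l^2 * s - 236196 * x^4 * l^2 - 20 * x^3 * l^3 * s^10 - 96 * x^3 * l^3 * s^9 - 756 * x^3 * l^3 * s^8 + 1728 * x^3 * l^3 * s^7 - 11016 * x^3 * l^3 * s^6 + 62208 * x^3 * l^3 * s^5 - 75816 * x^3 * l^3 * s^4 + 419904 * x^3 * l^3 * s^3 - 236196 * x^3 * l^3 * s^2 + 629856 * x^3 * l^3 * s - 236196 * x^3 * l^3 - 12 * x^3 * s^12 - 64 * x^3 * s^11 - 128 * x^3 * s^10 + 2592 * x^3 * s^9 - 17388 * x^3 * s^8 + 74304 * x^3 * s^7 - 246240 * x^3 * s^6 + 528768 * x^3 * s^5 - 936036 * x^3 * s^4 + 1119744 * x^3 * s^3 - 1049760 * x^3 * s^2 + 629856 * x^3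 * s - 236196 * x^3 - 144 * x^2 * l^4 * s^8 - 3888 * x^2 * l^4 * s^6 - 34992 * x^2 * l^4 * s^4 - 104976 * x^2 * l^4 * s^2 - 2 * x^2 * l * s^12 - 24 * x^2 * l * s^11 - 132 * x^2 * l * s^10 + 936 * x^2 * l * s^9 - 3726 * x^2 * l * s^8 + 30672 * x^2 * l * s^7 - 134136 * x^2 * l * s^6 + 260496 * x^2 * l * s^5 - 710046 * x^2 * l * s^4 + 752328 * x^2 * l * s^3 - 866052 * x^2 * l * s^2 + 472392 * x^2 * l * s - 118098 * x^2 * l - 32 * x * l^2 * s^10 + 192 * x * l^2 * s^9 - 1152 * x * l^2 * s^8 + 5184 * x * l^2 * s^7 - 15552 * x * l^2 * s^6 + 46656 * x * l^2 * s^5 - 93312 * x * l^2 * s^4 + 139968 * x * l^2 * s^3 - 209952 * x * l^2 * s^2 - 8 * s^12 - 64 * s^11 - 360 * s^10 - 5904 * s^8 + 17280 * s^7 - 42768 * s^6 + 124416 * s^5 - 122472 * s^4 + 139968 * s^3 - 52488 * s^2) * hl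

theorem div_T (x l s : A) (hl : l ^ 3 = 1 + s ^ 2) :
    l * (9 + s ^ 2) * (l ^ 2 * x ^ 2 - 2 * s * x + 2 * l) *
      ((l ^ 2 * (9 + s ^ 2) ^ 2 * x - 2 * s * (8 + 20 * (1 + s ^ 2) - (1 + s ^ 2) ^ 2)) ^ 2 +
        l ^ 2 * (9 + s ^ 2) ^ 2 * (l ^ 2 * (9 + s ^ 2) ^ 2 * x ^ 2 -
          4 * s * (8 + 20 * (1 + s ^ 2) - (1 + s ^ 2) ^ 2) * x + 8 * s ^ 2 * l * (9 + s ^ 2))) -
      2 * (l ^ 2 * (9 + s ^ 2) ^ 2) *
        (l ^ 2 * (9 + s ^ 2) ^ 2 * x - 2 * s * (8 + 20 * (1 + s ^ 2) - (1 + s ^ 2) ^ 2)) *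
        ((8 - 16 * (1 + s ^ 2) - (1 + s ^ 2) ^ 2) + 24 * s * l ^ 2 * x - 18 * l ^ 4 * x ^ 2 +
          4 * s * ((1 + s ^ 2) + 2) * x ^ 3) = (s ^ 2 - 2 * s + 3) ^ 2 * qT x l s := by
  unfold qT
  linear_combination (2 * x^4 * l^4 * s^10 + 90 * x^4 * l^4 * s^8 + 1620 * x^4 * l^4 * s^6 + 14580 * x^4 * l^4 * s^4 + 65610 * x^4 * l^4 * s^2 + 118098 * x^4 * l^4 + 2 * x^4 * l * s^12 - 8 * x^4 * l * s^11 + 92 * x^4 * l * s^10 - 312 * x^4 * l * s^9 + 1710 * x^4 * l * s^8 - 4752 * x^4 * l * s^7 + 16200 * x^4 * l * s^6 - 34992 * x^4 * l * s^5 + 80190 * x^4 * l * s^4 - 122472 * x^4 * l * s^3 + 183708 * x^4 * l * s^2 - 157464 * x^4 * l * s + 118098 * x^4 * l + 36 * x^3 * l^5 * s^8 + 1296 * x^3 * l^5 * s^6 + 17496 * x^3 * l^5 * s^4 + 104976 * x^3 * l^5 * s^2 + 236196 * x^3 * l^5 + 4 * x^3 * l^2 * s^11 + 36 * x^3 * l^2 * s^10 - 108 * x^3 * l^2 * s^9 + 1332 * x^3 * l^2 * s^8 -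 5400 * x^3 * l^2 * s^7 + 18792 * x^3 * l^2 * s^6 - 64152 * x^3 * l^2 * s^5 + 122472 * x^3 * l^2 * s^4 - 288684 * x^3 * l^2 * s^3 + 341172 * x^3 * l^2 * s^2 - 393660 * x^3 * l^2 * s + 236196 * x^3 * l^2 + 12 * x^2 * l^3 * s^10 + 24 * x^2 * l^3 * s^9 + 468 * x^2 * l^3 * s^8 - 1728 * x^2 * l^3 * s^7 + 7128 * x^2 * l^3 * s^6 - 42768 * x^2 * l^3 * s^5 + 52488 * x^2 * l^3 * s^4 - 279936 * x^2 * l^3 * s^3 + 183708 * x^2 * l^3 * s^2 - 472392 * x^2 * l^3 * s + 236196 * x^2 * l^3 + 24 * x^2 * s^11 + 228 * x^2 * s^10 - 1704 * x^2 * s^9 + 11700 * x^2 * s^8 - 44496 * x^2 * s^7 + 143208 * x^2 * s^6 - 322704 * x^2 * s^5 + 589032 * x^2 * s^4 - 752328 * x^2 * s^3 + 761076 * x^2 * s^2 - 472392 * x^2 * s + 236196 * x^2 + 2 * x * l * s^12 + 12 * x * l * s^10 - 432 * x * l * s^9 + 2286 * x * l * s^8 - 12096 * x * l * s^7 + 49896 * x * l * s^6 - 116640 * x * l * s^5 + 313470 * x * l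 * s^4 - 419904 * x * l * s^3 + 498636 * x * l * s^2 - 314928 * x * l * s + 118098 * x * l + 16 * l^2 * s^10 + 576 * l^2 * s^8 + 7776 * l^2 * s^6 + 46656 * l^2 * s^4 + 104976 * l^2 * s^2) * hl

theorem ell_eq (x l s k g : A) (hl : l ^ 3 = 1 + s ^ 2)
    (hk : k ^ 2 = -((1 + s ^ 2) ^ 2 + 8) * ((1 + s ^ 2) ^ 2 + 88 * (1 + s ^ 2) - 8))
    (hg : l ^ 2 * (9 + s ^ 2) ^ 2 * g = 1) :
    (x - (2 * s * (8 + 20 * (1 + s ^ 2) - (1 + s ^ 2) ^ 2) * g + 2 * s * k * g)) *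
      (x - (2 * s * (8 + 20 * (1 + s ^ 2) - (1 + s ^ 2) ^ 2) * g - 2 * s * k * g)) =
    g * (l ^ 2 * (9 + s ^ 2) ^ 2 * x ^ 2 -
          4 * s * (8 + 20 * (1 + s ^ 2) - (1 + s ^ 2) ^ 2) * x + 8 * s ^ 2 * l * (9 + s ^ 2)) := by
  linear_combination (-(4 * s ^ 2 * g ^ 2)) * hk - (8 * s ^ 2 * (9 + s ^ 2) ^ 3 * g ^ 2) * hl +
    (8 * s ^ 2 * l * (9 + s ^ 2) * g - x ^ 2) * hg

theorem emm_eq (x l s g : A) (hg : l ^ 2 * (9 + s ^ 2) ^ 2 * g = 1) :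
    x - 2 * s * (8 + 20 * (1 + s ^ 2) - (1 + s ^ 2) ^ 2) * g =
    g * (l ^ 2 * (9 + s ^ 2) ^ 2 * x - 2 * s * (8 + 20 * (1 + s ^ 2) - (1 + s ^ 2) ^ 2)) := by
  linear_combination (-x) * hg

theorem lhs_eq (s k g w q : A)
    (hk : k ^ 2 = -((1 + s ^ 2) ^ 2 + 8) * ((1 + s ^ 2) ^ 2 + 88 * (1 + s ^ 2) - 8))
    (hw : 4 * s ^ 2 * (s ^ 2 + 2 * s + 3) ^ 2 * ((1 + s ^ 2) ^ 2 + 88 * (1 + s ^ 2) - 8) * w = 1) :
    ((1 + s ^ 2) ^ 2 + 8) * (2 * s * k * g) ^ 2 * (-w * q) =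
      g ^ 2 * ((s ^ 2 - 2 * s + 3) ^ 2 * q) := by
  linear_combination (-(4 * s ^ 2 * g ^ 2 * w * q * ((1 + s ^ 2) ^ 2 + 8))) * hk +
    (g ^ 2 * q * (s ^ 2 - 2 * s + 3) ^ 2) * hw

theorem fin_V (a m e g L M r : A) (E : A) (hg : E * g = 1) (hm : m = g * M) (he : e = g * L) :
    a * (m ^ 2 + e) - 2 * m * e * r = g ^ 2 * (a * (M ^ 2 + E * L) - 2 * r * M * L) := by
  rw [hm, he]
  linear_combination (-(a * g * L)) * hg

theorem fin_T (a m e g L M r : A) (E : A) (hg : E * g = 1) (hm : m = g * M) (he : e = g * L) :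
    r * (m ^ 2 + e) - 2 * m * a = g ^ 2 * (r * (M ^ 2 + E * L) - 2 * E * M * a) := by
  rw [hm, he]
  linear_combination (2 * a * g * M - r * g * L) * hg

end division

section VT

open Polynomial (C X)

variable {R : Type} [CommRing R]

theorem vt (Q : SPar R) (w : R)
    (hw : 4 * Q.σ ^ 2 * (Q.σ ^ 2 + 2 * Q.σ + 3) ^ 2 *
      ((1 + Q.σ ^ 2) ^ 2 + 88 * (1 + Q.σ ^ 2) - 8) * w = 1) :
    Q.VT (-C w * qV X (C Q.lam) (C Q.σ)) (-C w * qT X (C Q.lam) (C Q.σ)) := by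
  have hl : (C Q.lam : Polynomial R) ^ 3 = 1 + C Q.σ ^ 2 := by
    rw [← map_pow, Q.hlam]
    simp
  have hk : (C Q.k : Polynomial R) ^ 2 = -((1 + C Q.σ ^ 2) ^ 2 + 8) *
      ((1 + C Q.σ ^ 2) ^ 2 + 88 * (1 + C Q.σ ^ 2) - 8) := by
    have := congrArg (C : R →+* Polynomial R) Q.hk
    simpa only [map_mul, map_add, map_sub, map_pow, map_neg, map_one, map_ofNat] using this
  have hg : (C Q.lam : Polynomial R) ^ 2 * (9 + C Q.σ ^ 2) ^ 2 * C Q.g = 1 := by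
    have := congrArg (C : R →+* Polynomial R) Q.hg
    simpa only [map_mul, map_add, map_sub, map_pow, map_neg, map_one, map_ofNat] using this
  have hw' : 4 * (C Q.σ : Polynomial R) ^ 2 * (C Q.σ ^ 2 + 2 * C Q.σ + 3) ^ 2 *
      ((1 + C Q.σ ^ 2) ^ 2 + 88 * (1 + C Q.σ ^ 2) - 8) * C w = 1 := by
    have := congrArg (C : R →+* Polynomial R) hw
    simpa only [map_mul, map_add, map_sub, map_pow, map_neg, map_one, map_ofNat] using this
  have hm : Q.mm = C Q.g * ((C Q.lam : Polynomial R) ^ 2 * (9 + C Q.σ ^ 2) ^ 2 * X -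
      2 * C Q.σ * (8 + 20 * (1 + C Q.σ ^ 2) - (1 + C Q.σ ^ 2) ^ 2)) := by
    rw [← emm_eq _ _ _ _ hg]
    simp only [SPar.mm, SPar.μ, map_mul, map_add, map_sub, map_pow, map_one, map_ofNat]
  have he : Q.ll = C Q.g * ((C Q.lam : Polynomial R) ^ 2 * (9 + C Q.σ ^ 2) ^ 2 * X ^ 2 -
      4 * C Q.σ * (8 + 20 * (1 + C Q.σ ^ 2) - (1 + C Q.σ ^ 2) ^ 2) * X +
      8 * C Q.σ ^ 2 * C Q.lam * (9 + C Q.σ ^ 2)) := by
    rw [← ell_eq _ _ _ _ _ hl hk hg]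
    simp only [SPar.ll, SPar.ξ₁, SPar.ξ₂, SPar.μ, SPar.ε, map_mul, map_add, map_sub, map_pow,
      map_one, map_ofNat]
  have hA : Q.At = (8 - 16 * (1 + C Q.σ ^ 2) - (1 + C Q.σ ^ 2) ^ 2) + 24 * C Q.σ * C Q.lam ^ 2 * X -
      18 * C Q.lam ^ 4 * X ^ 2 + 4 * C Q.σ * ((1 + C Q.σ ^ 2) + 2) * X ^ 3 := by
    simp only [SPar.At, SPar.u, map_mul, map_add, map_sub, map_pow, map_one, map_ofNat]
  have hQt : Q.Qt = C Q.lam * (9 + C Q.σ ^ 2) *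
      (C Q.lam ^ 2 * X ^ 2 - 2 * C Q.σ * X + 2 * C Q.lam) := by
    simp only [SPar.Qt, SPar.u, map_mul, map_add, map_sub, map_pow, map_one, map_ofNat]
    ring
  have hL : (C ((Q.u ^ 2 + 8) * Q.ε ^ 2) : Polynomial R) =
      ((1 + C Q.σ ^ 2) ^ 2 + 8) * (2 * C Q.σ * C Q.k * C Q.g) ^ 2 := by
    simp only [SPar.u, SPar.ε, map_mul, map_add, map_sub, map_pow, map_one, map_ofNat]
  constructor
  · rw [hL, lhs_eq _ _ _ _ _ hk hw', ← div_V _ _ _ hl, hA, hQt,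
      fin_V _ _ _ _ _ _ _ _ hg hm he]
    ring
  · rw [hL, lhs_eq _ _ _ _ _ hk hw', ← div_T _ _ _ hl, hA, hQt,
      fin_T _ _ _ _ _ _ _ _ hg hm he]

end VT

theorem spa : S_spa := by
  intro s hs
  have hs2 : s ^ 2 = 2 * s - 3 := by linear_combination hs
  have hne : ∀ a b : ℂ, a ^ 2 - 2 * a * b + 3 * b ^ 2 ≠ 0 → a - s * b ≠ 0 := by
    intro a b h1 h2
    apply h1
    have h3 : a = s * b := by linear_combination h2
    rw [h3]
    linear_combination b ^ 2 * hs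
  set σ : PowerSeries ℂ := PowerSeries.C s + PowerSeries.X ^ 6 with hσ
  have hσ0 : constantCoeff σ = s := by simp [hσ]
  have c2 : constantCoeff (2 : PowerSeries ℂ) = 2 := map_ofNat _ 2
  have c3 : constantCoeff (3 : PowerSeries ℂ) = 3 := map_ofNat _ 3
  have c4 : constantCoeff (4 : PowerSeries ℂ) = 4 := map_ofNat _ 4
  have c8 : constantCoeff (8 : PowerSeries ℂ) = 8 := map_ofNat _ 8
  have c9 : constantCoeff (9 : PowerSeries ℂ) = 9 := map_ofNat _ 9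
  have c20 : constantCoeff (20 : PowerSeries ℂ) = 20 := map_ofNat _ 20
  have c88 : constantCoeff (88 : PowerSeries ℂ) = 88 := map_ofNat _ 88
  -- facts about `s`
  have n0 : s ≠ 0 := by
    intro h
    rw [h] at hs
    norm_num at hs
  have n1 : 1 + s ^ 2 ≠ 0 := by
    intro h
    have := hne 1 1 (by norm_num)
    apply this
    linear_combination (-1 / 2 : ℂ) * h + (1 / 2 : ℂ) * hs
  have n9 : 9 + s ^ 2 ≠ 0 := by
    intro h
    have := hne (-3) 1 (by norm_num)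
    apply this
    linear_combination (-1 / 2 : ℂ) * h + (1 / 2 : ℂ) * hs
  have nc : 8 + 20 * (1 + s ^ 2) - (1 + s ^ 2) ^ 2 ≠ 0 := by
    intro h
    have := hne 3 5 (by norm_num)
    apply this
    have e : (1 + s ^ 2) ^ 2 = -8 := by
      rw [hs2]
      linear_combination 4 * hs
    rw [e] at h
    linear_combination (-1 / 8 : ℂ) * h + (20 / 8 : ℂ) * hs
  have nd : (1 + s ^ 2) ^ 2 + 88 * (1 + s ^ 2) - 8 ≠ 0 := by
    intro h
    have := hne 12 11 (by norm_num)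
    apply this
    have e : (1 + s ^ 2) ^ 2 = -8 := by
      rw [hs2]
      linear_combination 4 * hs
    rw [e] at h
    linear_combination (-1 / 16 : ℂ) * h + (88 / 16 : ℂ) * hs
  have np : s ^ 2 + 2 * s + 3 ≠ 0 := by
    intro h
    apply n0
    linear_combination (1 / 4 : ℂ) * h - (1 / 4 : ℂ) * hs
  -- the cube root
  obtain ⟨lam, hlam⟩ := root6 3 2 (by norm_num) (Polynomial.X ^ 2 + 1) s
  have hlam2 : lam ^ 3 = 1 + σ ^ 2 := by
    rw [hlam, ← hσ]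
    simp [add_comm]
  -- the square root
  obtain ⟨k, hk⟩ := root6 2 3 (by norm_num) (-(((Polynomial.X ^ 2 + 1) ^ 2 + 8) *
    ((Polynomial.X ^ 2 + 1) ^ 2 + 88 * (Polynomial.X ^ 2 + 1) - 8))) s
  have hk' : k ^ 2 = -((1 + σ ^ 2) ^ 2 + 8) * ((1 + σ ^ 2) ^ 2 + 88 * (1 + σ ^ 2) - 8) := by
    rw [hk]
    have h8 : (Polynomial.aeval σ) (8 : Polynomial ℂ) = 8 := map_ofNat _ 8
    have h88 : (Polynomial.aeval σ) (88 : Polynomial ℂ) = 88 := map_ofNat _ 88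
    simp only [← hσ, map_neg, map_mul, map_add, map_sub, map_pow, Polynomial.aeval_X, map_one,
      h8, h88]
    ring
  have hlam0 : constantCoeff lam ≠ 0 := by
    intro h
    have h1 := congrArg constantCoeff hlam2
    simp only [map_add, map_pow, map_one, hσ0, h] at h1
    apply n1
    rw [← h1]
    norm_num
  obtain ⟨g, hg⟩ := inv_of (lam ^ 2 * (9 + σ ^ 2) ^ 2) (by
    simp only [map_mul, map_add, map_pow, c9, hσ0]
    exact mul_ne_zero (pow_ne_zero _ hlam0) (pow_ne_zero _ n9))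
  have hg0 : constantCoeff g ≠ 0 := by
    intro h
    have h1 := congrArg constantCoeff hg
    rw [map_mul, h, mul_zero, map_one] at h1
    exact zero_ne_one h1
  obtain ⟨S, hS⟩ := root 2 (by norm_num) (8 * σ ^ 2 * lam * (9 + σ ^ 2) * g) (by
    simp only [map_mul, map_add, map_pow, c8, c9, hσ0]
    exact mul_ne_zero (mul_ne_zero (mul_ne_zero (mul_ne_zero (by norm_num) (pow_ne_zero _ n0))
      hlam0) n9) hg0)
  set μ : PowerSeries ℂ := 2 * σ * (8 + 20 * (1 + σ ^ 2) - (1 + σ ^ 2) ^ 2) * g with hμ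
  have hμ0 : constantCoeff μ ≠ 0 := by
    simp only [hμ, map_mul, map_add, map_sub, map_pow, map_one, c2, c8, c20, hσ0]
    exact mul_ne_zero (mul_ne_zero (mul_ne_zero (by norm_num) n0) nc) hg0
  obtain ⟨S', hS', hS0⟩ : ∃ S' : PowerSeries ℂ, S' ^ 2 = 8 * σ ^ 2 * lam * (9 + σ ^ 2) * g ∧
      constantCoeff (μ + S') ≠ 0 := by
    by_cases h1 : constantCoeff (μ + S) = 0
    · refine ⟨-S, by rw [neg_sq, hS], ?_⟩
      intro h2
      apply hμ0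
      rw [map_add] at h1 h2
      rw [map_neg] at h2
      linear_combination (1 / 2 : ℂ) * h1 + (1 / 2 : ℂ) * h2
    · exact ⟨S, hS, h1⟩
  obtain ⟨i, hi⟩ := inv_of _ hS0
  obtain ⟨w, hw⟩ := inv_of (4 * σ ^ 2 * (σ ^ 2 + 2 * σ + 3) ^ 2 *
      ((1 + σ ^ 2) ^ 2 + 88 * (1 + σ ^ 2) - 8)) (by
    simp only [map_mul, map_add, map_sub, map_pow, map_one, c2, c3, c4, c8, c88, hσ0]
    exact mul_ne_zero (mul_ne_zero (mul_ne_zero (by norm_num) (pow_ne_zero _ n0))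
      (pow_ne_zero _ np)) nd)
  exact ⟨⟨σ, lam, k, g, S', i, hlam2, hk', hg, hS', hi⟩, rfl, _, _, vt _ w hw⟩

end Pool.Agent.H803.MG927
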